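import Mathlib

set_option autoImplicit false

namespace Pool.Agent.Results.MP_ccca26_co.Circle

open ContinuousMap Finset

/-- `f` commutes with the involutions `i` and `j`. -/
def Equivar {X Y : Type} [TopologicalSpace X] [TopologicalSpace Y] (i : X → X) (j : Y → Y)
    (f : C(X, Y)) : Prop := ∀ x, f (i x) = j (f x)

/-- Equivariant homotopy equivalence of `(X, i)` and `(Y, j)`. -/
def Z2HE {X Y : Type} [TopologicalSpace X] [TopologicalSpace Y] (i : X → X) (j : Y → Y) : Prop :=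
  ∃ (f : C(X, Y)) (g : C(Y, X)), Equivar i j f ∧ Equivar j i g ∧
    HomotopicWith (g.comp f) (ContinuousMap.id X) (Equivar i i) ∧
    HomotopicWith (f.comp g) (ContinuousMap.id Y) (Equivar j j)

/-- The polyhedral complex `Hom(K₂, K)`: pairs of convex weightings of `V(K)` (the `true` side and
the `false` side) whose supports `A`, `B` are completely joined. -/
def homSpace {V : Type} [Fintype V] (K : SimpleGraph V) : Set (V × Bool → ℝ) :=
  {p | (∀ y, 0 ≤ p y) ∧ (∀ b, ∑ v, p (v, b) = 1) ∧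
    ∀ u v, p (u, true) ≠ 0 → p (v, false) ≠ 0 → K.Adj u v}

/-- The involution `(A, B) ↦ (B, A)`. -/
def homSwap {V : Type} [Fintype V] (K : SimpleGraph V) (p : homSpace K) : homSpace K :=
  ⟨fun y => p.1 (y.1, !y.2), fun _ => p.2.1 _, fun b => p.2.2.1 (!b),
    fun u v hu hv => (p.2.2.2 v u hv hu).symm⟩

/-- The categorical (tensor) product. -/
def tensor {α β : Type} (G : SimpleGraph α) (H : SimpleGraph β) : SimpleGraph (α × β) where
  Adj x y := G.Adj x.1 y.1 ∧ H.Adj x.2 y.2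
  symm := ⟨fun _ _ h => ⟨h.1.symm, h.2.symm⟩⟩
  loopless := ⟨fun _ h => G.irrefl h.1⟩

/-- `K` is multiplicative (over finite graphs `G`, `H`). -/
def Multiplicative {V : Type} (K : SimpleGraph V) : Prop :=
  ∀ (n m : ℕ) (G : SimpleGraph (Fin n)) (H : SimpleGraph (Fin m)),
    Nonempty (tensor G H →g K) → Nonempty (G →g K) ∨ Nonempty (H →g K)

section general
variable {X Y Z : Type} [TopologicalSpace X] [TopologicalSpace Y] [TopologicalSpace Z]

lemma conj {i : X → X} {j : Y → Y} {a b : C(Y, Y)} (h : HomotopicWith a b (Equivar j j))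
    (f : C(X, Y)) (g : C(Y, X)) (hf : Equivar i j f) (hg : Equivar j i g) :
    HomotopicWith (g.comp (a.comp f)) (g.comp (b.comp f)) (Equivar i i) := by
  obtain ⟨H⟩ := h
  refine ⟨⟨⟨⟨fun x => g (H (x.1, f x.2)), by fun_prop⟩, fun x => by simp, fun x => by simp⟩, ?_⟩⟩
  intro t x
  have := H.prop t (f x)
  show g (H (t, f (i x))) = i (g (H (t, f x)))
  rw [hf x, ← hg]
  exact congrArg g this

lemma Z2HE.symm {i : X → X} {j : Y → Y} (h : Z2HE i j) : Z2HE j i := by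
  obtain ⟨f, g, hf, hg, h1, h2⟩ := h
  exact ⟨g, f, hg, hf, h2, h1⟩

lemma Z2HE.trans {i : X → X} {j : Y → Y} {k : Z → Z} (h : Z2HE i j) (h' : Z2HE j k) :
    Z2HE i k := by
  obtain ⟨f, g, hf, hg, h1, h2⟩ := h
  obtain ⟨f', g', hf', hg', h1', h2'⟩ := h'
  refine ⟨f'.comp f, g.comp g', fun x => ?_, fun x => ?_, ?_, ?_⟩
  · simp only [comp_apply]; rw [hf, hf']
  · simp only [comp_apply]; rw [hg', hg]
  · exact (conj h1' f g hf hg).trans h1
  · exact (conj h2 g' f' hg' hf').trans h2'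

end general

def sw {V : Type} (y : V × Bool) : V × Bool := (y.1, !y.2)

@[simp] lemma sw_sw {V : Type} (y : V × Bool) : sw (sw y) = y := by simp [sw]

structure Cx (V : Type) where
  face : Set (V × Bool) → Prop
  down : ∀ F F', F' ⊆ F → face F → face F'
  symm : ∀ F, face F → face (sw ⁻¹' F)

def Sp {V : Type} [Fintype V] (X : Cx V) : Set (V × Bool → ℝ) :=
  {p | (∀ y, 0 ≤ p y) ∧ (∀ b, ∑ v, p (v, b) = 1) ∧ X.face {y | p y ≠ 0}}

def swp {V : Type} [Fintype V] (X : Cx V) (p : Sp X) : Sp X :=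
  ⟨fun y => p.1 (sw y), fun _ => p.2.1 _, fun b => p.2.2.1 (!b), X.symm _ p.2.2.2⟩

variable {V V' : Type} [Fintype V] [Fintype V']

lemma cev (X : Cx V) (y : V × Bool) : Continuous fun p : Sp X => p.1 y :=
  (continuous_apply y).comp continuous_subtype_val

lemma line {Z : Type} [TopologicalSpace Z] {i : Z → Z} (X : Cx V) (f g : C(Z, Sp X))
    (hf : Equivar i (swp X) f) (hg : Equivar i (swp X) g)
    (h : ∀ z, X.face ({y | (f z).1 y ≠ 0} ∪ {y | (g z).1 y ≠ 0})) :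
    HomotopicWith f g (Equivar i (swp X)) := by
  refine ⟨⟨⟨⟨fun x => ⟨fun y => (1 - x.1.1) * (f x.2).1 y + x.1.1 * (g x.2).1 y, fun y => ?_,
    fun b => ?_, ?_⟩, ?_⟩, fun x => ?_, fun x => ?_⟩, ?_⟩⟩
  · exact add_nonneg (mul_nonneg (sub_nonneg.2 x.1.2.2) ((f x.2).2.1 y))
      (mul_nonneg x.1.2.1 ((g x.2).2.1 y))
  · rw [Finset.sum_add_distrib, ← Finset.mul_sum, ← Finset.mul_sum, (f x.2).2.2.1, (g x.2).2.2.1]
    ring
  · refine X.down _ _ (fun y hy => ?_) (h x.2)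
    by_contra hc
    simp only [Set.mem_union, Set.mem_ofPred_eq, not_or, not_not] at hc hy
    exact hy (by rw [hc.1, hc.2]; ring)
  · refine Continuous.subtype_mk (continuous_pi fun y => ?_) _
    have h1 : Continuous fun z => (f z).1 y := (cev X y).comp f.continuous
    have h2 : Continuous fun z => (g z).1 y := (cev X y).comp g.continuous
    exact ((continuous_const.sub (continuous_subtype_val.comp continuous_fst)).mul
      (h1.comp continuous_snd)).add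
      ((continuous_subtype_val.comp continuous_fst).mul (h2.comp continuous_snd))
  · ext y; simp
  · ext y; simp
  · intro t x
    ext y
    show (1 - t.1) * (f (i x)).1 y + t.1 * (g (i x)).1 y =
      (1 - t.1) * (f x).1 (sw y) + t.1 * (g x).1 (sw y)
    rw [hf x, hg x]; rfl

lemma nrm {Z : Type} [TopologicalSpace Z] {i : Z → Z} (X : Cx V) (q : Z → V × Bool → ℝ)
    (hc : ∀ y, Continuous fun z => q z y) (h0 : ∀ z y, 0 ≤ q z y)
    (hpos : ∀ z b, ∃ v, q z (v, b) ≠ 0) (hf : ∀ z, X.face {y | q z y ≠ 0})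
    (he : ∀ z y, q (i z) y = q z (sw y)) :
    ∃ r : C(Z, Sp X), Equivar i (swp X) r ∧
      ∀ z y, (r z).1 y = q z y / ∑ v, q z (v, y.2) := by
  have hT : ∀ z b, 0 < ∑ v, q z (v, b) := fun z b => by
    obtain ⟨v, hv⟩ := hpos z b
    exact Finset.sum_pos' (fun x _ => h0 z _) ⟨v, mem_univ _, lt_of_le_of_ne (h0 z _) hv.symm⟩
  refine ⟨⟨fun z => ⟨fun y => q z y / ∑ v, q z (v, y.2),
    fun y => div_nonneg (h0 z y) (hT z _).le, fun b => ?_, ?_⟩, ?_⟩, fun z => ?_, fun z y => rfl⟩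
  · show ∑ v, q z (v, b) / ∑ v, q z (v, b) = 1
    rw [← Finset.sum_div]; exact div_self (hT z b).ne'
  · refine X.down {y | q z y ≠ 0} _ (fun y hy (h : q z y = 0) => hy ?_) (hf z)
    show q z y / _ = 0
    rw [h, zero_div]
  · exact Continuous.subtype_mk (continuous_pi fun y => (hc y).div
      (continuous_finsetSum _ fun v _ => hc _) fun z => (hT z _).ne') _
  · ext y
    show q (i z) y / ∑ v, q (i z) (v, y.2) = q z (sw y) / ∑ v, q z (v, (sw y).2)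
    simp only [he]; rfl

lemma side (X : Cx V) (p : Sp X) (b : Bool) : ∃ v, p.1 (v, b) ≠ 0 := by
  by_contra h
  push Not at h
  have := p.2.2.1 b
  simp [h] at this

lemma push (X : Cx V) (X' : Cx V') (φ : V → V')
    (h : ∀ F, X.face F → X'.face (Prod.map φ id '' F)) :
    ∃ r : C(Sp X, Sp X'), Equivar (swp X) (swp X') r ∧
      ∀ p y, (r p).1 y ≠ 0 → y ∈ Prod.map φ id '' {x | p.1 x ≠ 0} := by
  classical
  have key : ∀ (p : Sp X) (y : V' × Bool), (∑ v, if φ v = y.1 then p.1 (v, y.2) else 0) ≠ 0 →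
      y ∈ Prod.map φ id '' {x | p.1 x ≠ 0} := by
    intro p y hy
    obtain ⟨v, -, hv⟩ := Finset.exists_ne_zero_of_sum_ne_zero hy
    by_cases e : φ v = y.1
    · exact ⟨(v, y.2), by simpa [e] using hv, by simp [e]⟩
    · simp [e] at hv
  obtain ⟨r, hr, hr'⟩ := nrm (i := swp X) X'
    (fun (p : Sp X) y => ∑ v, if φ v = y.1 then p.1 (v, y.2) else 0)
    (fun y => continuous_finsetSum _ fun v _ => by split_ifs; exacts [cev X _, continuous_const])
    (fun p y => Finset.sum_nonneg fun v _ => by split_ifs; exacts [p.2.1 _, le_rfl])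
    (fun p b => by
      obtain ⟨v, hv⟩ := side X p b
      refine ⟨φ v, ne_of_gt (Finset.sum_pos' (fun v _ => ?_) ⟨v, mem_univ _, ?_⟩)⟩
      · split_ifs; exacts [p.2.1 _, le_rfl]
      · simpa using lt_of_le_of_ne (p.2.1 _) hv.symm)
    (fun p => X'.down _ _ (key p) (h _ p.2.2.2)) (fun p y => rfl)
  exact ⟨r, hr, fun p y hy => key p y fun e => hy (by rw [hr', e, zero_div])⟩

def cx (r : V → V → Prop) (hr : ∀ u v, r u v → r v u) : Cx V where
  face F := ∀ u v, (u, true) ∈ F → (v, false) ∈ F → r u v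
  down _ _ h hF u v hu hv := hF u v (h hu) (h hv)
  symm _ hF u v hu hv := hr _ _ (hF v u hv hu)

lemma fold (r : V → V → Prop) (hr : ∀ u v, r u v → r v u) (s : V' → V' → Prop)
    (hs : ∀ u v, s u v → s v u) (φ : V → V') (ψ : V' → V) (hφ : ∀ u v, r u v → s (φ u) (φ v))
    (hψ : ∀ u v, s u v → r (ψ u) (ψ v)) (h1 : ∀ u, φ (ψ u) = u)
    (h2 : ∀ u v, r u v → r (ψ (φ u)) v) : Z2HE (swp (cx r hr)) (swp (cx s hs)) := by
  obtain ⟨f, hf, hf'⟩ := push (cx r hr) (cx s hs) φ (by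
    rintro F hF u v ⟨⟨x, b⟩, hx, e⟩ ⟨⟨y, c⟩, hy, e'⟩
    simp only [Prod.map, id, Prod.mk.injEq] at e e'
    obtain ⟨rfl, rfl⟩ := e; obtain ⟨rfl, rfl⟩ := e'
    exact hφ _ _ (hF _ _ hx hy))
  obtain ⟨g, hg, hg'⟩ := push (cx s hs) (cx r hr) ψ (by
    rintro F hF u v ⟨⟨x, b⟩, hx, e⟩ ⟨⟨y, c⟩, hy, e'⟩
    simp only [Prod.map, id, Prod.mk.injEq] at e e'
    obtain ⟨rfl, rfl⟩ := e; obtain ⟨rfl, rfl⟩ := e'
    exact hψ _ _ (hF _ _ hx hy))
  refine ⟨f, g, hf, hg, line _ _ _ (fun x => ?_) (fun _ => rfl) fun p => ?_,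
    line _ _ _ (fun x => ?_) (fun _ => rfl) fun p => ?_⟩
  · simp only [comp_apply]; rw [hf, hg]
  · have key : ∀ u b, (u, b) ∈ {y | ((g.comp f) p).1 y ≠ 0} ∪ {y | (ContinuousMap.id _ p).1 y ≠ 0} →
        ∃ x, p.1 (x, b) ≠ 0 ∧ ∀ w, r x w → r u w := by
      rintro u b (hu | hu)
      · obtain ⟨y, hy, e⟩ := hg' _ _ hu
        obtain ⟨⟨x, c⟩, hx, rfl⟩ := hf' _ _ hy
        simp only [Prod.map, id, Prod.mk.injEq] at e
        obtain ⟨rfl, rfl⟩ := e
        exact ⟨x, hx, h2 x⟩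
      · exact ⟨u, hu, fun _ h => h⟩
    intro u v hu hv
    obtain ⟨x, hx, hx'⟩ := key u _ hu
    obtain ⟨y, hy, hy'⟩ := key v _ hv
    exact hr _ _ (hy' _ (hr _ _ (hx' _ (p.2.2.2 x y hx hy))))
  · simp only [comp_apply]; rw [hg, hf]
  · refine (cx s hs).down _ _ ?_ p.2.2.2
    rintro z (hu | hu)
    · obtain ⟨y, hy, rfl⟩ := hf' _ _ hu
      obtain ⟨⟨x, c⟩, hx, rfl⟩ := hg' _ _ hy
      simpa [h1] using hx
    · exact hu

def Both (P Q F : Set (V × Bool)) : Prop := (∃ x ∈ P, x ∈ F) ∧ ∃ x ∈ Q, x ∈ F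

def cut (X : Cx V) (P Q : Set (V × Bool)) : Cx V where
  face F := X.face F ∧ ¬ Both P Q F ∧ ¬ Both P Q (sw ⁻¹' F)
  down F F' h hF := ⟨X.down _ _ h hF.1,
    fun ⟨⟨x, a, b⟩, ⟨y, c, d⟩⟩ => hF.2.1 ⟨⟨x, a, h b⟩, ⟨y, c, h d⟩⟩,
    fun ⟨⟨x, a, b⟩, ⟨y, c, d⟩⟩ => hF.2.2 ⟨⟨x, a, h b⟩, ⟨y, c, h d⟩⟩⟩
  symm F hF := ⟨X.symm _ hF.1, hF.2.2, by
    have : sw ⁻¹' (sw ⁻¹' F) = F := by ext; simp
    rw [this]; exact hF.2.1⟩

open Classical in
noncomputable def ms (P : Set (V × Bool)) (p : V × Bool → ℝ) : ℝ := ∑ x, if x ∈ P then p x else 0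

lemma ms_nonneg (P : Set (V × Bool)) {p : V × Bool → ℝ} (h : ∀ y, 0 ≤ p y) : 0 ≤ ms P p :=
  Finset.sum_nonneg fun x _ => by split_ifs; exacts [h x, le_rfl]

lemma ms_pos (P : Set (V × Bool)) {p : V × Bool → ℝ} (h : ∀ y, 0 ≤ p y) :
    0 < ms P p ↔ ∃ x ∈ P, p x ≠ 0 := by
  classical
  constructor
  · intro h0
    obtain ⟨x, -, hx⟩ := Finset.exists_ne_zero_of_sum_ne_zero h0.ne'
    by_cases e : x ∈ P
    · exact ⟨x, e, by simpa [e] using hx⟩
    · simp [e] at hx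
  · rintro ⟨x, e, hx⟩
    refine Finset.sum_pos' (fun x _ => by split_ifs; exacts [h x, le_rfl]) ⟨x, mem_univ _, ?_⟩
    simpa [e] using lt_of_le_of_ne (h x) hx.symm

lemma ms_cont (P : Set (V × Bool)) : Continuous (ms P) :=
  continuous_finsetSum _ fun x _ => by split_ifs; exacts [continuous_apply x, continuous_const]

open Classical in
noncomputable def wt (P Q : Set (V × Bool)) (p : V × Bool → ℝ) (y : V × Bool) : ℝ :=
  if y ∈ P then max (ms P p - ms Q p) 0 else if y ∈ Q then max (ms Q p - ms P p) 0 else 1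

noncomputable def ap (P Q : Set (V × Bool)) (a : V → V) (p : V × Bool → ℝ) (y : V × Bool) : ℝ :=
  ms P p * ms Q p * ms {x | x ∈ P ∪ Q ∧ Prod.map a id x = y} p

lemma wt_nonneg (P Q : Set (V × Bool)) (p : V × Bool → ℝ) (y : V × Bool) : 0 ≤ wt P Q p y := by
  unfold wt; split_ifs
  exacts [le_max_right _ _, le_max_right _ _, zero_le_one]

lemma ap_nonneg (P Q : Set (V × Bool)) (a : V → V) {p : V × Bool → ℝ} (h : ∀ y, 0 ≤ p y)
    (y : V × Bool) : 0 ≤ ap P Q a p y :=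
  mul_nonneg (mul_nonneg (ms_nonneg _ h) (ms_nonneg _ h)) (ms_nonneg _ h)

lemma ap_ne (P Q : Set (V × Bool)) (a : V → V) {p : V × Bool → ℝ} (h : ∀ y, 0 ≤ p y)
    (y : V × Bool) (hy : ap P Q a p y ≠ 0) :
    Both P Q {y | p y ≠ 0} ∧ y ∈ Prod.map a id '' ({y | p y ≠ 0} ∩ (P ∪ Q)) := by
  simp only [ap, mul_ne_zero_iff] at hy
  obtain ⟨⟨h1, h2⟩, h3⟩ := hy
  obtain ⟨x, hx, hx'⟩ := (ms_pos _ h).1 (lt_of_le_of_ne (ms_nonneg _ h) h3.symm)
  exact ⟨⟨(ms_pos _ h).1 (lt_of_le_of_ne (ms_nonneg _ h) h1.symm),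
    (ms_pos _ h).1 (lt_of_le_of_ne (ms_nonneg _ h) h2.symm)⟩, x, ⟨hx', hx.1⟩, hx.2⟩

lemma wt_zero (P Q : Set (V × Bool)) (a : V → V) {p : V × Bool → ℝ} (h : ∀ y, 0 ≤ p y)
    (y : V × Bool) (hy : p y ≠ 0) (hw : wt P Q p y = 0) : 0 < ap P Q a p (Prod.map a id y) := by
  unfold wt at hw
  split_ifs at hw with h1 h2
  · have e1 := (ms_pos P h).2 ⟨y, h1, hy⟩
    have e2 : ms P p - ms Q p ≤ 0 := hw ▸ le_max_left _ _
    exact mul_pos (mul_pos e1 (by linarith)) ((ms_pos _ h).2 ⟨y, ⟨Or.inl h1, rfl⟩, hy⟩)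
  · have e1 := (ms_pos Q h).2 ⟨y, h2, hy⟩
    have e2 : ms Q p - ms P p ≤ 0 := hw ▸ le_max_left _ _
    exact mul_pos (mul_pos (by linarith) e1) ((ms_pos _ h).2 ⟨y, ⟨Or.inr h2, rfl⟩, hy⟩)
  · simp at hw

lemma collapse (X : Cx V) (P Q : Set (V × Bool)) (a : V → V) (hPQ : Disjoint P Q)
    (ha : ∀ v b, (a v, b) ∉ P ∪ Q)
    (H : ∀ F, X.face F → Both P Q F → X.face (F ∪ Prod.map a id '' (F ∩ (P ∪ Q)))) :
    Z2HE (swp X) (swp (cut X P Q)) := by
  classical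
  let q : (V × Bool → ℝ) → V × Bool → ℝ := fun p y =>
    p y * wt P Q p y * wt P Q (p ∘ sw) (sw y) + (ap P Q a p y + ap P Q a (p ∘ sw) (sw y))
  have hsw : ∀ p : V × Bool → ℝ, (p ∘ sw) ∘ sw = p := fun p => by ext; simp
  have hq : ∀ p y, q (p ∘ sw) y = q p (sw y) := fun p y => by
    simp only [q, hsw, sw_sw, Function.comp_apply]; ring
  have hq0 : ∀ p : V × Bool → ℝ, (∀ y, 0 ≤ p y) → ∀ y, 0 ≤ q p y := fun p h y =>
    add_nonneg (mul_nonneg (mul_nonneg (h y) (wt_nonneg ..)) (wt_nonneg ..))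
      (add_nonneg (ap_nonneg _ _ _ h _) (ap_nonneg _ _ _ (fun _ => h _) _))
  let T : Set (V × Bool) → Set (V × Bool) := fun F =>
    F ∪ {y | Both P Q F ∧ y ∈ Prod.map a id '' (F ∩ (P ∪ Q))}
  have hT : ∀ F, X.face F → X.face (T F) := fun F hF => by
    by_cases e : Both P Q F
    · exact X.down _ _ (Set.union_subset_union_right _ fun y hy => hy.2) (H F hF e)
    · exact X.down _ _ (Set.union_subset subset_rfl fun y hy => (e hy.1).elim) hF
  have hface : ∀ p : Sp X, X.face ({y | q p.1 y ≠ 0} ∪ {y | p.1 y ≠ 0}) := fun p => by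
    refine X.down _ _ ?_ (X.symm _ (hT _ (X.symm _ (hT _ p.2.2.2))))
    have h1 : ∀ y, y ∈ T {y | p.1 y ≠ 0} → y ∈ sw ⁻¹' T (sw ⁻¹' T {y | p.1 y ≠ 0}) :=
      fun y hy => Or.inl (by simpa using hy)
    rintro y (hy | hy)
    · by_cases e1 : p.1 y = 0
      · by_cases e2 : ap P Q a p.1 y = 0
        · have e3 : ap P Q a (p.1 ∘ sw) (sw y) ≠ 0 := fun e => hy (by simp [q, e1, e2, e])
          obtain ⟨⟨⟨x, b, c⟩, ⟨x', b', c'⟩⟩, z, ⟨hz, hz'⟩, e⟩ :=
            ap_ne _ _ _ (fun _ => p.2.1 _) _ e3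
          exact Or.inr ⟨⟨⟨x, b, Or.inl c⟩, ⟨x', b', Or.inl c'⟩⟩, z, ⟨Or.inl hz, hz'⟩, e⟩
        · exact h1 y (Or.inr (ap_ne _ _ _ p.2.1 _ e2))
      · exact h1 y (Or.inl e1)
    · exact h1 y (Or.inl hy)
  have hnb : ∀ p : V × Bool → ℝ, (∀ y, 0 ≤ p y) → ¬ Both P Q {y | q p y ≠ 0} := by
    rintro p h ⟨⟨x, hx, hx'⟩, ⟨y, hy, hy'⟩⟩
    have key : ∀ z ∈ P ∪ Q, q p z ≠ 0 → wt P Q p z ≠ 0 := fun z hz hq e => by
      have e2 : ap P Q a p z = 0 := by
        by_contra e2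
        obtain ⟨-, w, -, rfl⟩ := ap_ne _ _ _ h _ e2
        exact ha _ _ hz
      have e3 : ap P Q a (p ∘ sw) (sw z) = 0 := by
        by_contra e3
        obtain ⟨-, w, -, e4⟩ := ap_ne _ _ _ (fun _ => h _) _ e3
        have : z = (a w.1, z.2) := Prod.ext (congrArg Prod.fst e4).symm rfl
        exact ha _ _ (this ▸ hz)
      exact hq (by simp [q, e, e2, e3])
    have k1 := key x (Or.inl hx) hx'
    have k2 := key y (Or.inr hy) hy'
    have hyP : y ∉ P := fun e => Set.disjoint_left.1 hPQ e hy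
    simp only [wt, hx, hy, hyP, if_true, if_false, ne_eq, max_eq_right_iff, not_le] at k1 k2
    linarith
  have hwc : ∀ y, Continuous fun p : V × Bool → ℝ => wt P Q p y := fun y => by
    unfold wt; split_ifs
    exacts [((ms_cont _).sub (ms_cont _)).max continuous_const,
      ((ms_cont _).sub (ms_cont _)).max continuous_const, continuous_const]
  have hac : ∀ y, Continuous fun p : V × Bool → ℝ => ap P Q a p y := fun y =>
    ((ms_cont _).mul (ms_cont _)).mul (ms_cont _)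
  have hsc : Continuous fun p : V × Bool → ℝ => p ∘ sw := by fun_prop
  obtain ⟨r, hr, hr'⟩ := nrm (i := swp X) (cut X P Q) (fun (p : Sp X) y => q p.1 y)
    (fun y => ((((continuous_apply y).mul (hwc y)).mul ((hwc _).comp hsc)).add
      ((hac y).add ((hac _).comp hsc))).comp continuous_subtype_val)
    (fun p => hq0 _ p.2.1)
    (fun p b => by
      obtain ⟨v, hv⟩ := side X p b
      have n1 := ap_nonneg P Q a p.2.1
      have n2 := ap_nonneg P Q a (p := p.1 ∘ sw) (fun _ => p.2.1 _)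
      have n3 : ∀ y, 0 ≤ p.1 y * wt P Q p.1 y * wt P Q (p.1 ∘ sw) (sw y) := fun y =>
        mul_nonneg (mul_nonneg (p.2.1 y) (wt_nonneg ..)) (wt_nonneg ..)
      by_cases e1 : wt P Q p.1 (v, b) = 0
      · have := wt_zero P Q a p.2.1 _ hv e1
        exact ⟨a v, ne_of_gt (add_pos_of_nonneg_of_pos (n3 _)
          (add_pos_of_pos_of_nonneg this (n2 _)))⟩
      by_cases e2 : wt P Q (p.1 ∘ sw) (sw (v, b)) = 0
      · have := wt_zero P Q a (p := p.1 ∘ sw) (fun _ => p.2.1 _) _ (by simpa using hv) e2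
        exact ⟨a v, ne_of_gt (add_pos_of_nonneg_of_pos (n3 _)
          (add_pos_of_nonneg_of_pos (n1 _) this))⟩
      · exact ⟨v, ne_of_gt (add_pos_of_pos_of_nonneg (lt_of_le_of_ne (n3 _)
          (mul_ne_zero (mul_ne_zero hv e1) e2).symm) (add_nonneg (n1 _) (n2 _)))⟩)
    (fun p => ⟨X.down _ _ Set.subset_union_left (hface p), hnb _ p.2.1, by
      have := hnb (p.1 ∘ sw) (fun _ => p.2.1 _)
      simp only [hq] at this
      exact this⟩)
    (fun p y => hq p.1 y)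
  have hr2 : ∀ p y, (r p).1 y ≠ 0 → q p.1 y ≠ 0 := fun p y hy e => hy (by rw [hr', e, zero_div])
  let j : C(Sp (cut X P Q), Sp X) :=
    ⟨fun p => ⟨p.1, p.2.1, p.2.2.1, p.2.2.2.1⟩, continuous_subtype_val.subtype_mk _⟩
  refine ⟨r, j, hr, fun _ => rfl, line _ _ _ (fun x => ?_) (fun _ => rfl) fun p => ?_,
    line _ _ _ (fun x => hr (j x)) (fun _ => rfl) fun p => ?_⟩
  · simp only [comp_apply]; rw [hr]; rfl
  · exact X.down _ _ (Set.union_subset_union_left _ (hr2 p)) (hface p)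
  · refine (cut X P Q).down _ _ (Set.union_subset (fun y hy => ?_) subset_rfl) p.2.2.2
    intro e
    have e2 : ap P Q a p.1 y = 0 := by
      by_contra e2
      exact p.2.2.2.2.1 (ap_ne _ _ _ p.2.1 _ e2).1
    have e3 : ap P Q a (p.1 ∘ sw) (sw y) = 0 := by
      by_contra e3
      exact p.2.2.2.2.2 (ap_ne _ _ _ (fun _ => p.2.1 _) _ e3).1
    exact hr2 (j p) y hy (by
      show p.1 y * _ * _ + (ap P Q a p.1 y + ap P Q a (p.1 ∘ sw) (sw y)) = 0
      rw [show p.1 y = 0 from e, e2, e3]; ring)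

lemma congr_he (X X' : Cx V) (h : Sp X = Sp X') : Z2HE (swp X) (swp X') :=
  ⟨⟨fun p => ⟨p.1, h.le p.2⟩, continuous_subtype_val.subtype_mk _⟩,
    ⟨fun p => ⟨p.1, h.ge p.2⟩, continuous_subtype_val.subtype_mk _⟩, fun _ => rfl, fun _ => rfl,
    HomotopicWith.refl _ fun _ => rfl, HomotopicWith.refl _ fun _ => rfl⟩

omit [Fintype V] in
lemma cut_add (X : Cx V) (P Q F N : Set (V × Bool)) (hF : (cut X P Q).face F)
    (h : X.face (F ∪ N)) (hN : ∀ y ∈ N, ∀ b, (y.1, b) ∉ P ∪ Q) : (cut X P Q).face (F ∪ N) := by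
  refine ⟨h, fun ⟨⟨x, a, b⟩, ⟨y, c, d⟩⟩ => hF.2.1 ⟨⟨x, a, ?_⟩, ⟨y, c, ?_⟩⟩,
    fun ⟨⟨x, a, b⟩, ⟨y, c, d⟩⟩ => hF.2.2 ⟨⟨x, a, ?_⟩, ⟨y, c, ?_⟩⟩⟩
  · exact b.resolve_right fun e => hN x e x.2 (Or.inl a)
  · exact d.resolve_right fun e => hN y e y.2 (Or.inr c)
  · exact b.resolve_right fun e => hN _ e x.2 (Or.inl a)
  · exact d.resolve_right fun e => hN _ e y.2 (Or.inr c)

def c5 (i j : Fin 5) : Prop := j = i + 1 ∨ i = j + 1
def chord (i j : Fin 5) : Prop := (i = 0 ∧ j = 2) ∨ (i = 2 ∧ j = 0)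
instance : DecidableRel c5 := fun i j => by unfold c5; infer_instance
instance : DecidableRel chord := fun i j => by unfold chord; infer_instance

def kr {W : Type} (R0 R : W → W → Prop) (x y : Fin 5 × W) : Prop :=
  (c5 x.1 y.1 ∧ R x.2 y.2) ∨ (chord x.1 y.1 ∧ R0 x.2 y.2)

def pr {W : Type} (R : W → W → Prop) (x y : Fin 5 × W) : Prop := c5 x.1 y.1 ∧ R x.2 y.2

lemma kr_symm {W : Type} {R0 R : W → W → Prop} (h0 : ∀ u v, R0 u v → R0 v u)
    (h : ∀ u v, R u v → R v u) (x y : Fin 5 × W) : kr R0 R x y → kr R0 R y x := by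
  rintro (⟨a, b⟩ | ⟨a, b⟩)
  · exact Or.inl ⟨a.symm, h _ _ b⟩
  · exact Or.inr ⟨by unfold chord at *; tauto, h0 _ _ b⟩

lemma pr_symm {W : Type} {R : W → W → Prop} (h : ∀ u v, R u v → R v u) (x y : Fin 5 × W) :
    pr R x y → pr R y x := fun ⟨a, b⟩ => ⟨a.symm, h _ _ b⟩

def L {W : Type} (i : Fin 5) (b : Bool) : Set ((Fin 5 × W) × Bool) := {y | y.1.1 = i ∧ y.2 = b}

lemma unchord {W : Type} [Fintype W] {R0 R : W → W → Prop} (h0 : ∀ u v, R0 u v → R0 v u)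
    (h : ∀ u v, R u v → R v u) (hle : ∀ u v, R0 u v → R u v) :
    Z2HE (swp (cx _ (kr_symm h0 h))) (swp (cx _ (pr_symm h))) := by
  have hR : ∀ x y, kr R0 R x y → R x.2 y.2 ∧ (c5 x.1 y.1 ∨ chord x.1 y.1) := by
    rintro x y (⟨a, b⟩ | ⟨a, b⟩)
    exacts [⟨b, Or.inl a⟩, ⟨hle _ _ b, Or.inr a⟩]
  have s1 := collapse (cx _ (kr_symm h0 h)) (L 1 false) (L 2 false) (fun v => (4, v.2))
    (Set.disjoint_left.2 fun y a b => by simp [L] at a b; simp [a.1] at b)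
    (fun v b => by simp [L])
    (by
      rintro F hF ⟨⟨⟨x, _⟩, ⟨hx, rfl⟩, hx'⟩, ⟨⟨y, _⟩, ⟨hy, rfl⟩, hy'⟩⟩ u v hu hv
      have hu' : (u, true) ∈ F := hu.resolve_right (by
        rintro ⟨⟨w, c⟩, ⟨-, e⟩, e'⟩
        simp only [Prod.map, id, Prod.mk.injEq] at e'
        simp [L, e'.2] at e)
      rcases hv with hv | ⟨⟨w, c⟩, ⟨hw, -⟩, e'⟩
      · exact hF _ _ hu' hv
      · simp only [Prod.map, id, Prod.mk.injEq] at e'
        obtain ⟨rfl, rfl⟩ := e'
        have a1 := (hR _ _ (hF _ _ hu' hx')).2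
        have a2 := (hR _ _ (hF _ _ hu' hy')).2
        rw [show x.1 = 1 from hx] at a1
        rw [show y.1 = 2 from hy] at a2
        refine Or.inl ⟨?_, (hR _ _ (hF _ _ hu' hw)).1⟩
        show c5 u.1 4
        revert a1 a2; generalize u.1 = i; revert i; decide)
  have s2 := collapse (cut (cx _ (kr_symm h0 h)) (L 1 false) (L 2 false)) (L 0 true) (L 1 true)
    (fun v => (3, v.2))
    (Set.disjoint_left.2 fun y a b => by simp [L] at a b; simp [a.1] at b)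
    (fun v b => by simp [L])
    (by
      rintro F hF ⟨⟨⟨x, _⟩, ⟨hx, rfl⟩, hx'⟩, ⟨⟨y, _⟩, ⟨hy, rfl⟩, hy'⟩⟩
      refine cut_add _ _ _ _ _ hF (fun u v hu hv => ?_) (by rintro _ ⟨w, -, rfl⟩ b; simp [L])
      have hv' : (v, false) ∈ F := hv.resolve_right (by
        rintro ⟨⟨w, c⟩, ⟨-, e⟩, e'⟩
        simp only [Prod.map, id, Prod.mk.injEq] at e'
        simp [L, e'.2] at e)
      rcases hu with hu | ⟨⟨w, c⟩, ⟨hw, -⟩, e'⟩
      · exact hF.1 _ _ hu hv'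
      · simp only [Prod.map, id, Prod.mk.injEq] at e'
        obtain ⟨rfl, rfl⟩ := e'
        have a1 := (hR _ _ (hF.1 _ _ hx' hv')).2
        have a2 := (hR _ _ (hF.1 _ _ hy' hv')).2
        rw [show x.1 = 0 from hx] at a1
        rw [show y.1 = 1 from hy] at a2
        refine Or.inl ⟨?_, (hR _ _ (hF.1 _ _ hw hv')).1⟩
        show c5 3 v.1
        revert a1 a2; generalize v.1 = i; revert i; decide)
  have s3 := collapse (cut (cut (cx _ (kr_symm h0 h)) (L 1 false) (L 2 false)) (L 0 true)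
    (L 1 true)) (L 0 true) (L 2 false) (fun v => (if v.1 = 0 then 3 else 4, v.2))
    (Set.disjoint_left.2 fun y a b => by simp [L] at a b; simp [a.1] at b)
    (fun v b => by split_ifs <;> simp [L])
    (by
      rintro F hF ⟨⟨⟨x, _⟩, ⟨hx, rfl⟩, hx'⟩, ⟨⟨y, _⟩, ⟨hy, rfl⟩, hy'⟩⟩
      refine cut_add _ _ _ _ _ hF (cut_add _ _ _ _ _ hF.1 (fun u v hu hv => ?_) ?_) ?_
      rotate_left
      · rintro _ ⟨w, -, rfl⟩ b; simp only [Prod.map]; split_ifs <;> simp [L]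
      · rintro _ ⟨w, -, rfl⟩ b; simp only [Prod.map]; split_ifs <;> simp [L]
      have kt : ∀ w, (w, true) ∈ F → w.1 = 0 ∨ w.1 = 3 := fun w hw => by
        have a1 := (hR _ _ (hF.1.1 _ _ hw hy')).2
        rw [show y.1 = 2 from hy] at a1
        have a2 : w.1 ≠ 1 := fun e => hF.2.1 ⟨⟨_, ⟨hx, rfl⟩, hx'⟩, ⟨_, ⟨e, rfl⟩, hw⟩⟩
        revert a1 a2; generalize w.1 = i; revert i; decide
      have kf : ∀ w, (w, false) ∈ F → w.1 = 2 ∨ w.1 = 4 := fun w hw => by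
        have a1 := (hR _ _ (hF.1.1 _ _ hx' hw)).2
        rw [show x.1 = 0 from hx] at a1
        have a2 : w.1 ≠ 1 := fun e => hF.1.2.1 ⟨⟨_, ⟨e, rfl⟩, hw⟩, ⟨_, ⟨hy, rfl⟩, hy'⟩⟩
        revert a1 a2; generalize w.1 = i; revert i; decide
      have ku : (u, true) ∈ F ∨ ∃ w, (w, true) ∈ F ∧ u = (3, w.2) := by
        rcases hu with hu | ⟨⟨w, c⟩, ⟨hw, e⟩, e'⟩
        · exact Or.inl hu
        · simp only [Prod.map, id, Prod.mk.injEq] at e'
          obtain ⟨rfl, rfl⟩ := e'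
          simp only [L, Set.mem_union, Set.mem_ofPred_eq] at e
          exact Or.inr ⟨w, hw, by simp [show w.1 = 0 by simpa using e]⟩
      have kv : (v, false) ∈ F ∨ ∃ w, (w, false) ∈ F ∧ v = (4, w.2) := by
        rcases hv with hv | ⟨⟨w, c⟩, ⟨hw, e⟩, e'⟩
        · exact Or.inl hv
        · simp only [Prod.map, id, Prod.mk.injEq] at e'
          obtain ⟨rfl, rfl⟩ := e'
          simp only [L, Set.mem_union, Set.mem_ofPred_eq] at e
          exact Or.inr ⟨w, hw, by simp [show w.1 = 2 by simpa using e]⟩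
      rcases ku with hu | ⟨w, hw, rfl⟩ <;> rcases kv with hv | ⟨z, hz, rfl⟩
      · exact hF.1.1 _ _ hu hv
      · refine Or.inl ⟨?_, (hR _ _ (hF.1.1 _ _ hu hz)).1⟩
        show c5 u.1 4
        rcases kt _ hu with e | e <;> rw [e] <;> decide
      · refine Or.inl ⟨?_, (hR _ _ (hF.1.1 _ _ hw hv)).1⟩
        show c5 3 v.1
        rcases kf _ hv with e | e <;> rw [e] <;> decide
      · exact Or.inl ⟨(by decide : c5 3 4), (hR _ _ (hF.1.1 _ _ hw hz)).1⟩)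
  refine ((s1.trans s2).trans s3).trans (congr_he _ _ ?_)
  ext p
  constructor
  · rintro ⟨a, b, c⟩
    refine ⟨a, b, fun u v hu hv => ?_⟩
    rcases c.1.1.1 u v hu hv with e | ⟨⟨e1, e2⟩ | ⟨e1, e2⟩, -⟩
    · exact e
    · exact (c.2.1 ⟨⟨_, ⟨e1, rfl⟩, hu⟩, ⟨_, ⟨e2, rfl⟩, hv⟩⟩).elim
    · exact (c.2.2 ⟨⟨(v, true), ⟨e2, rfl⟩, hv⟩, ⟨(u, false), ⟨e1, rfl⟩, hu⟩⟩).elim
  · intro hp
    obtain ⟨s, hs⟩ := side _ ⟨p, hp⟩ true
    obtain ⟨t, ht⟩ := side _ ⟨p, hp⟩ false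
    obtain ⟨a, b, c⟩ := hp
    have k1 : ∀ x y : Fin 5 × W, p (x, true) ≠ 0 → p (y, true) ≠ 0 → ¬ c5 x.1 y.1 := fun x y hx hy => by
      have a1 := (c _ _ hx ht).1
      have a2 := (c _ _ hy ht).1
      revert a1 a2; generalize x.1 = i; generalize y.1 = j; generalize t.1 = k; revert i j k; decide
    have k2 : ∀ x y : Fin 5 × W, p (x, false) ≠ 0 → p (y, false) ≠ 0 → ¬ c5 x.1 y.1 := fun x y hx hy => by
      have a1 := (c _ _ hs hx).1
      have a2 := (c _ _ hs hy).1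
      revert a1 a2; generalize x.1 = i; generalize y.1 = j; generalize s.1 = k; revert i j k; decide
    refine ⟨a, b, ⟨⟨fun u v hu hv => Or.inl (c u v hu hv), ?_, ?_⟩, ?_, ?_⟩, ?_, ?_⟩
    all_goals rintro ⟨⟨⟨x, _⟩, ⟨hx, rfl⟩, hx'⟩, ⟨⟨y, _⟩, ⟨hy, rfl⟩, hy'⟩⟩
    all_goals simp only at hx hy
    · exact k2 x y hx' hy' (by rw [hx, hy]; decide)
    · exact k1 x y hx' hy' (by rw [hx, hy]; decide)
    · exact k1 x y hx' hy' (by rw [hx, hy]; decide)
    · exact k2 x y hx' hy' (by rw [hx, hy]; decide)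
    · exact absurd (c _ _ hx' hy').1 (by rw [hx, hy]; decide)
    · exact absurd (c _ _ hy' hx').1 (by rw [hx, hy]; decide)

def xc (z : ℂ) (i : Fin 3) : ℝ := ![z.re, z.im, -z.re - z.im] i

lemma hexagon : Z2HE (swp (cx (V := Fin 3) (· ≠ ·) fun _ _ h => h.symm))
    (fun z : Metric.sphere (0 : ℂ) 1 => -z) := by
  set X := cx (V := Fin 3) (· ≠ ·) fun _ _ h => h.symm with hX
  let Z : Sp X → ℂ := fun p => ((p.1 (0, true) - p.1 (0, false) : ℝ) : ℂ) +
    ((p.1 (1, true) - p.1 (1, false) : ℝ) : ℂ) * Complex.I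
  have hZc : Continuous Z :=
    (Complex.continuous_ofReal.comp ((cev X _).sub (cev X _))).add
      ((Complex.continuous_ofReal.comp ((cev X _).sub (cev X _))).mul continuous_const)
  have hZx : ∀ p i, xc (Z p) i = p.1 (i, true) - p.1 (i, false) := fun p i => by
    have h1 := p.2.2.1 true
    have h2 := p.2.2.1 false
    simp only [Fin.sum_univ_three] at h1 h2
    fin_cases i <;> simp [xc, Z]
    linarith
  have hZ0 : ∀ p, Z p ≠ 0 := fun p h => by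
    obtain ⟨v, hv⟩ := side X p true
    have h1 := hZx p v
    have h2 : xc 0 v = 0 := by fin_cases v <;> simp [xc]
    rw [h, h2] at h1
    exact p.2.2.2 v v hv (fun e => hv (by linarith [show p.1 (v, false) = 0 from e])) rfl
  have hZn : ∀ p, Z (swp X p) = - Z p := fun p => by
    simp only [Z, swp, sw, Bool.not_true, Bool.not_false]; push_cast; ring
  have hfc : Continuous fun p => ((‖Z p‖⁻¹ : ℝ) : ℂ) * Z p :=
    (Complex.continuous_ofReal.comp
      (hZc.norm.inv₀ fun p => norm_ne_zero_iff.2 (hZ0 p))).mul hZc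
  have hfm : ∀ p, ((‖Z p‖⁻¹ : ℝ) : ℂ) * Z p ∈ Metric.sphere (0 : ℂ) 1 := fun p => by
    simp [norm_ne_zero_iff.2 (hZ0 p)]
  let f : C(Sp X, Metric.sphere (0 : ℂ) 1) :=
    ⟨fun p => ⟨((‖Z p‖⁻¹ : ℝ) : ℂ) * Z p, hfm p⟩, hfc.subtype_mk hfm⟩
  have hf : Equivar (swp X) (fun z : Metric.sphere (0 : ℂ) 1 => -z) f := fun p => by
    ext
    show ((‖Z (swp X p)‖⁻¹ : ℝ) : ℂ) * Z (swp X p) = -(((‖Z p‖⁻¹ : ℝ) : ℂ) * Z p)
    rw [hZn, norm_neg]; ring
  have hxn : ∀ z i, xc (-z) i = - xc z i := fun z i => by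
    fin_cases i <;> simp [xc]
    ring
  have hxs : ∀ (c : ℝ) z i, xc (c * z) i = c * xc z i := fun c z i => by
    fin_cases i <;> simp [xc]
    ring
  have hxc : ∀ i, Continuous fun z => xc z i := fun i => by
    fin_cases i <;> simp only [xc] <;> simp <;> fun_prop
  let q : Metric.sphere (0 : ℂ) 1 → Fin 3 × Bool → ℝ := fun z y =>
    max (if y.2 then xc z.1 y.1 else - xc z.1 y.1) 0
  have hpos : ∀ z b, ∃ v, q z (v, b) ≠ 0 := fun z b => by
    by_contra hc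
    push Not at hc
    have h0 := hc 0
    have h1 := hc 1
    have h2 := hc 2
    have hz : z.1 ≠ 0 := fun e => by have := z.2; simp [e] at this
    apply hz
    cases b <;> simp [q, xc] at h0 h1 h2 <;> exact Complex.ext (by simp; linarith) (by simp; linarith)
  obtain ⟨g, hg, hg'⟩ := nrm (i := fun z : Metric.sphere (0 : ℂ) 1 => -z) X q
    (fun y => by
      have := (hxc y.1).comp (continuous_subtype_val (p := fun z : ℂ => z ∈ Metric.sphere 0 1))
      simp only [q]; split_ifs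
      exacts [this.max continuous_const, this.neg.max continuous_const])
    (fun z y => le_max_right _ _) hpos
    (fun z u v hu hv e => by
      subst e
      simp [q] at hu hv
      linarith)
    (fun z y => by
      obtain ⟨v, b⟩ := y
      have : (-z).1 = - z.1 := rfl
      cases b <;> simp [q, sw, this, hxn])
  refine ⟨f, g, hf, hg, line _ _ _ (fun x => ?_) (fun _ => rfl) fun p => ?_, ?_⟩
  · simp only [comp_apply]; rw [hf, hg]
  · refine X.down {y | p.1 y ≠ 0} _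
      (Set.union_subset (fun y hy (e : p.1 y = 0) => hy ?_) subset_rfl) p.2.2.2
    obtain ⟨v, b⟩ := y
    show (g (f p)).1 (v, b) = 0
    rw [hg', div_eq_zero_iff]
    left
    have h1 : xc (f p).1 v = ‖Z p‖⁻¹ * (p.1 (v, true) - p.1 (v, false)) := by
      rw [← hZx, ← hxs]; rfl
    have h2 : 0 ≤ ‖Z p‖⁻¹ := inv_nonneg.2 (norm_nonneg _)
    have e' : p.1 (v, b) = 0 := e
    have h3 := mul_nonneg h2 (p.2.1 (v, !b))
    cases b <;> simp only [q, h1, e', max_eq_right_iff] <;> simp at h3 ⊢ <;> linarith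
  · have : f.comp g = ContinuousMap.id _ := by
      ext z
      set s := ∑ v, q z (v, true) with hs
      have hs' : ∑ v, q z (v, false) = s := by
        have k : ∀ v, q z (v, true) - q z (v, false) = xc z.1 v := fun v => by
          simp only [q]; simp
        have : ∑ v, q z (v, true) - ∑ v, q z (v, false) = 0 := by
          rw [← Finset.sum_sub_distrib]; simp only [k, Fin.sum_univ_three]; simp [xc]
        linarith
      have hs0 : 0 < s := by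
        obtain ⟨v, hv⟩ := hpos z true
        exact Finset.sum_pos' (fun x _ => le_max_right _ _)
          ⟨v, mem_univ _, lt_of_le_of_ne (le_max_right _ _) hv.symm⟩
      have hz : Z (g z) = ((s⁻¹ : ℝ) : ℂ) * z.1 := by
        have k : ∀ v, xc (Z (g z)) v = xc (((s⁻¹ : ℝ) : ℂ) * z.1) v := fun v => by
          rw [hZx, hg', hg', hxs]
          simp only [hs', ← hs]
          rw [← sub_div, div_eq_inv_mul]
          congr 1
          simp only [q]; simp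
        exact Complex.ext (k 0) (k 1)
      have hn : ‖z.1‖ = 1 := by simp
      show ((‖Z (g z)‖⁻¹ : ℝ) : ℂ) * Z (g z) = z.1
      rw [hz, norm_mul, hn, Complex.norm_real, Real.norm_of_nonneg (inv_nonneg.2 hs0.le)]
      have : (s : ℂ) ≠ 0 := by exact_mod_cast hs0.ne'
      push_cast; field_simp
    rw [this]
    exact HomotopicWith.refl _ fun _ => rfl

def gz (i j : Fin 11) : Bool :=
  (i.1, j.1) ∈ [(0, 1), (1, 2), (2, 3), (3, 4), (4, 0), (5, 4), (5, 1), (6, 0), (6, 2), (7, 1), (7, 3),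
    (8, 2), (8, 4), (9, 3), (9, 0), (5, 10), (6, 10), (7, 10), (8, 10), (9, 10)]

def ga (i j : Fin 11) : Prop := gz i j = true ∨ gz j i = true
instance : DecidableRel ga := fun i j => by unfold ga; infer_instance

def Gr : SimpleGraph (Fin 11) where
  Adj := ga
  symm := ⟨fun _ _ h => h.symm⟩
  loopless := ⟨by decide⟩

def R1 : Option (Fin 11) → Option (Fin 11) → Prop
  | some a, some b => ga a b
  | _, _ => True

def R2 : Option (Fin 11) ⊕ Fin 11 → Option (Fin 11) ⊕ Fin 11 → Prop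
  | .inl a, .inl b => R1 a b
  | .inl a, .inr b => a ≠ none ∧ R1 a (some b)
  | .inr a, .inl b => b ≠ none ∧ R1 (some a) b
  | .inr a, .inr b => ga a b

def R0 : Option (Fin 11) ⊕ Fin 11 → Option (Fin 11) ⊕ Fin 11 → Prop
  | .inr a, .inr b => ga a b
  | _, _ => False

lemma R1_symm : ∀ u v, R1 u v → R1 v u := by
  rintro (_ | a) (_ | b) h <;> first | trivial | exact h.symm

lemma R2_symm : ∀ u v, R2 u v → R2 v u := by
  rintro (a | a) (b | b) h
  exacts [R1_symm _ _ h, ⟨h.1, R1_symm _ _ h.2⟩, ⟨h.1, R1_symm _ _ h.2⟩, h.symm]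

lemma R0_symm : ∀ u v, R0 u v → R0 v u := by
  rintro (a | a) (b | b) h <;> first | exact h | exact h.symm

lemma R0_le : ∀ u v, R0 u v → R2 u v := by
  rintro (a | a) (b | b) h <;> first | exact h.elim | exact h

def K : SimpleGraph (Fin 5 × (Option (Fin 11) ⊕ Fin 11)) where
  Adj := kr R0 R2
  symm := ⟨kr_symm R0_symm R2_symm⟩
  loopless := ⟨by
    rintro ⟨i, x⟩ (⟨h, -⟩ | ⟨h, -⟩) <;> revert h <;> simp only <;> revert i <;> decide⟩

lemma K_he : Z2HE (homSwap K) (fun z : Metric.sphere (0 : ℂ) 1 => -z) := by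
  have s1 := unchord R0_symm R2_symm R0_le
  have s2 := fold _ (pr_symm R2_symm) _ (pr_symm R1_symm) (Prod.map id (Sum.elim id some))
    (Prod.map id Sum.inl)
    (by rintro ⟨i, a | a⟩ ⟨j, b | b⟩ ⟨h1, h2⟩
        exacts [⟨h1, h2⟩, ⟨h1, h2.2⟩, ⟨h1, h2.2⟩, ⟨h1, h2⟩])
    (fun _ _ h => h) (fun _ => rfl)
    (by rintro ⟨i, a | a⟩ ⟨j, b | b⟩ ⟨h1, h2⟩
        exacts [⟨h1, h2⟩, ⟨h1, h2⟩, ⟨h1, h2.2⟩, ⟨h1, by simp, h2⟩])
  have s3 := fold _ (pr_symm R1_symm) _ (pr_symm (R := fun _ _ : Unit => True) fun _ _ h => h)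
    (Prod.map id fun _ => ()) (Prod.map id fun _ => none) (fun _ _ h => ⟨h.1, trivial⟩)
    (fun _ _ h => ⟨h.1, trivial⟩) (fun _ => rfl)
    (by rintro ⟨i, a⟩ ⟨j, _ | b⟩ h <;> exact ⟨h.1, trivial⟩)
  have s4 := unchord (R0 := fun _ _ : Unit => True) (R := fun _ _ : Unit => True)
    (fun _ _ h => h) (fun _ _ h => h) (fun _ _ h => h)
  have s5 := fold _ (kr_symm (R0 := fun _ _ : Unit => True) (R := fun _ _ : Unit => True)
    (fun _ _ h => h) (fun _ _ h => h)) (V' := Fin 3) (· ≠ ·) (fun _ _ h => h.symm)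
    (fun x => ![0, 1, 2, 0, 2] x.1) (fun i => (![0, 1, 2] i, ()))
    (by rintro ⟨i, _⟩ ⟨j, _⟩; simp only [kr, and_true]; revert i j; decide)
    (by intro i j; simp only [kr, and_true]; revert i j; decide)
    (by decide)
    (by rintro ⟨i, _⟩ ⟨j, _⟩; simp only [kr, and_true]; revert i j; decide)
  exact ((((s1.trans s2).trans s3).trans s4.symm).trans s5).trans hexagon

lemma no_tri (x y z : Fin 5 × (Option (Fin 11) ⊕ Fin 11)) (h0 : chord x.1 y.1 ∧ R0 x.2 y.2)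
    (h1 : K.Adj y z) (h2 : K.Adj z x) : False := by
  have hR : ∀ x y, K.Adj x y → R2 x.2 y.2 := by
    rintro x y (⟨a, b⟩ | ⟨a, b⟩)
    exacts [b, R0_le _ _ b]
  have tf : ∀ a b c : Fin 11, ga a b → ga b c → ga c a → False := by decide +kernel
  obtain ⟨i, a | a⟩ := x
  · exact h0.2
  obtain ⟨j, b | b⟩ := y
  · exact h0.2
  have k1 := hR _ _ h1
  have k2 := hR _ _ h2
  obtain ⟨k, (_ | c) | c⟩ := z
  · exact k1.1 rfl
  · exact tf a b c h0.2 k1.2 k2.2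
  · exact tf a b c h0.2 k1 k2

theorem result : ¬ ∀ (V : Type) [Fintype V] (K : SimpleGraph V),
    Z2HE (homSwap K) (fun z : Metric.sphere (0 : ℂ) 1 => -z) → Multiplicative K := by
  intro h
  have hc : ∀ i j : Fin 3, i ≠ j → c5 (![0, 1, 2] i) (![0, 1, 2] j) ∨
      chord (![0, 1, 2] i) (![0, 1, 2] j) := by decide
  rcases h _ K K_he 3 11 ⊤ Gr ⟨⟨fun x => (![0, 1, 2] x.1, Sum.inr x.2), fun {x y} hxy =>
    (hc _ _ hxy.1).elim (fun e => Or.inl ⟨e, hxy.2⟩) (fun e => Or.inr ⟨e, hxy.2⟩)⟩⟩ with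
    ⟨⟨f⟩⟩ | ⟨⟨f⟩⟩
  · have a := f.map_adj (show (⊤ : SimpleGraph (Fin 3)).Adj 0 1 by simp)
    have b := f.map_adj (show (⊤ : SimpleGraph (Fin 3)).Adj 1 2 by simp)
    have c := f.map_adj (show (⊤ : SimpleGraph (Fin 3)).Adj 2 0 by simp)
    rcases id a with a' | a'
    · rcases id b with b' | b'
      · rcases id c with c' | c'
        · exact (by decide : ∀ i j k : Fin 5, c5 i j → c5 j k → c5 k i → False) _ _ _ a'.1 b'.1 c'.1
        · exact no_tri _ _ _ c' a b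
      · exact no_tri _ _ _ b' c a
    · exact no_tri _ _ _ a' b c
  · let c : Fin 11 → Fin 3 := fun v => ![0, 1, 2, 0, 2] (f v).1
    have hcol : ∀ u v, gz u v = true → c u ≠ c v := fun u v e => by
      have k : ∀ i j : Fin 5, c5 i j ∨ chord i j →
          (![0, 1, 2, 0, 2] i : Fin 3) ≠ ![0, 1, 2, 0, 2] j := by decide
      exact k _ _ ((f.map_adj (show Gr.Adj u v from Or.inl e)).imp And.left And.left)
    have key : ∀ c0 c1 c2 c3 c4 w : Fin 3, c0 ≠ c1 → c1 ≠ c2 → c2 ≠ c3 → c3 ≠ c4 → c4 ≠ c0 →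
        (∃ u, u ≠ c4 ∧ u ≠ c1 ∧ u ≠ w) → (∃ u, u ≠ c0 ∧ u ≠ c2 ∧ u ≠ w) →
        (∃ u, u ≠ c1 ∧ u ≠ c3 ∧ u ≠ w) → (∃ u, u ≠ c2 ∧ u ≠ c4 ∧ u ≠ w) →
        (∃ u, u ≠ c3 ∧ u ≠ c0 ∧ u ≠ w) → False := by
      intro c0 c1 c2
      fin_cases c0 <;> fin_cases c1 <;> fin_cases c2 <;> intro c3 c4 w <;> fin_cases c3 <;>
        fin_cases c4 <;> fin_cases w <;> decide
    exact key (c 0) (c 1) (c 2) (c 3) (c 4) (c 10) (hcol _ _ rfl) (hcol _ _ rfl) (hcol _ _ rfl)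
      (hcol _ _ rfl) (hcol _ _ rfl) ⟨c 5, hcol _ _ rfl, hcol _ _ rfl, hcol _ _ rfl⟩
      ⟨c 6, hcol _ _ rfl, hcol _ _ rfl, hcol _ _ rfl⟩ ⟨c 7, hcol _ _ rfl, hcol _ _ rfl, hcol _ _ rfl⟩
      ⟨c 8, hcol _ _ rfl, hcol _ _ rfl, hcol _ _ rfl⟩ ⟨c 9, hcol _ _ rfl, hcol _ _ rfl, hcol _ _ rfl⟩

end Pool.Agent.Results.MP_ccca26_co.Circle
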